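import Pool.Agent.H76.MXT.Stmts

set_option autoImplicit false

namespace Pool.MXT

open Set

namespace LC1aux

theorem tc_inj {a b : ℝ × ℝ} (h : tc a = tc b) : a = b := by
  have h1 := congrArg Complex.re h
  have h2 := congrArg Complex.im h
  exact Prod.ext h1 h2

theorem tc_cont : Continuous tc := by
  have : tc = fun q : ℝ × ℝ => (q.1 : ℂ) + (q.2 : ℂ) * Complex.I := by
    funext q
    apply Complex.ext <;> simp [tc]
  rw [this]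
  fun_prop

theorem nbh {U : Set (ℝ × ℝ)} (hU : IsOpen U) {p : ℝ × ℝ} (hp : p ∈ U) {h : ℝ} (hh : 0 < h)
    (C : ℝ → ℝ × ℝ) (c : ℝ) (hC : ContinuousOn C (Icc (c - h) (c + h))) (hc : C c = p) :
    ∃ δ, 0 < δ ∧ δ ≤ h ∧ ∀ s ∈ Icc (c - δ) (c + δ), C s ∈ U := by
  have h1 : ContinuousAt C c := hC.continuousAt (Icc_mem_nhds (by linarith) (by linarith))
  have h2 : C ⁻¹' U ∈ nhds c := h1 (hU.mem_nhds (by rw [hc]; exact hp))
  obtain ⟨ε, hε, h3⟩ := Metric.mem_nhds_iff.1 h2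
  refine ⟨min h (ε / 2), lt_min hh (by linarith), min_le_left _ _, fun s hs => h3 ?_⟩
  have h4 := min_le_right h (ε / 2)
  rw [Metric.mem_ball, Real.dist_eq, abs_lt]
  constructor
  · linarith [hs.1]
  · linarith [hs.2]

/-- congruence of the winding -/
theorem wnd_congr (hTUR : S_TUR) (F G : ℝ → ℝ → ℂ) (a b c d : ℝ) (hab : a ≤ b) (hcd : c ≤ d)
    (hF : Con F a b c d) (hZ : NZB F a b c d)
    (hFG : ∀ x ∈ Icc a b, ∀ y ∈ Icc c d, G x y = F x y) : wnd F a b c d = wnd G a b c d := by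
  have ha : a ∈ Icc a b := left_mem_Icc.2 hab
  have hb : b ∈ Icc a b := right_mem_Icc.2 hab
  have hc : c ∈ Icc c d := left_mem_Icc.2 hcd
  have hd : d ∈ Icc c d := right_mem_Icc.2 hcd
  have hx : ∀ y ∈ Icc c d, ContinuousOn (fun x => F x y) (Icc a b) := by
    intro y hy
    exact hF.comp (continuousOn_id.prodMk continuousOn_const) (fun x hx => ⟨hx, hy⟩)
  have hy : ∀ x ∈ Icc a b, ContinuousOn (fun y => F x y) (Icc c d) := by
    intro x hx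
    exact hF.comp (continuousOn_const.prodMk continuousOn_id) (fun y hy => ⟨hx, hy⟩)
  have e1 := (hTUR (fun x => F x c) a b hab ⟨hx c hc, fun x hx' => (hZ.1 x hx').1⟩).2.2.2.1
    (fun x => G x c) (fun x hx' => hFG x hx' c hc)
  have e2 := (hTUR (fun y => F b y) c d hcd ⟨hy b hb, fun y hy' => (hZ.2 y hy').2⟩).2.2.2.1
    (fun y => G b y) (fun y hy' => hFG b hb y hy')
  have e3 := (hTUR (fun x => F x d) a b hab ⟨hx d hd, fun x hx' => (hZ.1 x hx').2⟩).2.2.2.1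
    (fun x => G x d) (fun x hx' => hFG x hx' d hd)
  have e4 := (hTUR (fun y => F a y) c d hcd ⟨hy a ha, fun y hy' => (hZ.2 y hy').1⟩).2.2.2.1
    (fun y => G a y) (fun y hy' => hFG a ha y hy')
  unfold wnd
  rw [e1, e2, e3, e4]

end LC1aux

open LC1aux in
theorem lc1_thm (hHM1 : S_HM1) (hSGN : S_SGN) (hTUR : S_TUR) : S_LC1 := by
  intro X Y p hPC A B s₀ t₀ h hh hA hB iA iB hAX hBY hAp hBp
  obtain ⟨Φ, U, hU, hpU, hΦp, hco⟩ := hPC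
  obtain ⟨δ₁, hδ₁, hδ₁h, hUA⟩ := nbh hU hpU hh A s₀ hA hAp
  obtain ⟨δ₂, hδ₂, hδ₂h, hUB⟩ := nbh hU hpU hh B t₀ hB hBp
  set Ψ : ℝ × ℝ → ℂ := fun v => tc (Φ.symm v) with hΨ
  have hΨc : Continuous Ψ := tc_cont.comp Φ.symm.continuous
  have hΨi : Function.Injective Ψ := fun v w hvw => Φ.symm.injective (tc_inj hvw)
  set a : ℝ → ℝ := fun s => (Φ (A s)).1 with ha
  set b : ℝ → ℝ := fun t => (Φ (B t)).2 with hb
  refine ⟨min δ₁ δ₂, lt_min hδ₁ hδ₂, fun δ hδ hδle => ?_⟩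
  have hd1 : δ ≤ δ₁ := hδle.trans (min_le_left _ _)
  have hd2 : δ ≤ δ₂ := hδle.trans (min_le_right _ _)
  have sub1 : ∀ s ∈ Icc (s₀ - δ) (s₀ + δ), s ∈ Icc (s₀ - δ₁) (s₀ + δ₁) := fun s hs =>
    ⟨by linarith [hs.1], by linarith [hs.2]⟩
  have sub2 : ∀ s ∈ Icc (t₀ - δ) (t₀ + δ), s ∈ Icc (t₀ - δ₂) (t₀ + δ₂) := fun s hs =>
    ⟨by linarith [hs.1], by linarith [hs.2]⟩
  have sub3 : ∀ s ∈ Icc (s₀ - δ) (s₀ + δ), s ∈ Icc (s₀ - h) (s₀ + h) := fun s hs =>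
    ⟨by linarith [hs.1], by linarith [hs.2]⟩
  have sub4 : ∀ s ∈ Icc (t₀ - δ) (t₀ + δ), s ∈ Icc (t₀ - h) (t₀ + h) := fun s hs =>
    ⟨by linarith [hs.1], by linarith [hs.2]⟩
  have hΦA : ∀ s ∈ Icc (s₀ - δ) (s₀ + δ), Φ (A s) = (a s, 0) := fun s hs =>
    Prod.ext rfl (((hco _ (hUA s (sub1 s hs))).1).1 (hAX s (sub3 s hs)))
  have hΦB : ∀ t ∈ Icc (t₀ - δ) (t₀ + δ), Φ (B t) = (0, b t) := fun t ht =>
    Prod.ext (((hco _ (hUB t (sub2 t ht))).2).1 (hBY t (sub4 t ht))) rfl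
  have hcA : ContinuousOn A (Icc (s₀ - δ) (s₀ + δ)) := hA.mono sub3
  have hcB : ContinuousOn B (Icc (t₀ - δ) (t₀ + δ)) := hB.mono sub4
  have hca : ContinuousOn a (Icc (s₀ - δ) (s₀ + δ)) :=
    continuous_fst.comp_continuousOn (Φ.continuous.comp_continuousOn hcA)
  have hcb : ContinuousOn b (Icc (t₀ - δ) (t₀ + δ)) :=
    continuous_snd.comp_continuousOn (Φ.continuous.comp_continuousOn hcB)
  have hia : InjOn a (Icc (s₀ - δ) (s₀ + δ)) := by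
    intro s hs s' hs' hss
    apply iA (sub3 s hs) (sub3 s' hs')
    apply Φ.injective
    rw [hΦA s hs, hΦA s' hs', hss]
  have hib : InjOn b (Icc (t₀ - δ) (t₀ + δ)) := by
    intro s hs s' hs' hss
    apply iB (sub4 s hs) (sub4 s' hs')
    apply Φ.injective
    rw [hΦB s hs, hΦB s' hs', hss]
  have ha0 : a s₀ = 0 := by rw [ha]; change (Φ (A s₀)).1 = 0; rw [hAp, hΦp]
  have hb0 : b t₀ = 0 := by rw [hb]; change (Φ (B t₀)).2 = 0; rw [hBp, hΦp]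
  obtain ⟨σ, hσ, hσa⟩ := hSGN a s₀ δ hδ hca hia ha0
  obtain ⟨τ, hτ, hτb⟩ := hSGN b t₀ δ hδ hcb hib hb0
  obtain ⟨k, hk⟩ := hHM1 Ψ a b s₀ t₀ δ σ τ hΨc hΨi hδ hσ hτ hca hcb hσa hτb
  have hDF : ∀ s ∈ Icc (s₀ - δ) (s₀ + δ), ∀ t ∈ Icc (t₀ - δ) (t₀ + δ),
      Ψ (a s, 0) - Ψ (0, b t) = DF A B s t := by
    intro s hs t ht
    rw [← hΦA s hs, ← hΦB t ht]
    simp only [hΨ, Homeomorph.symm_apply_apply]
    rfl
  have hzero : ∀ s ∈ Icc (s₀ - δ) (s₀ + δ), ∀ t ∈ Icc (t₀ - δ) (t₀ + δ),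
      DF A B s t = 0 → s = s₀ ∧ t = t₀ := by
    intro s hs t ht h0
    rw [← hDF s hs t ht, sub_eq_zero] at h0
    have h1 := hΨi h0
    rw [Prod.mk.injEq] at h1
    exact ⟨(hσa s hs).2 h1.1, (hτb t ht).2 h1.2.symm⟩
  have hCon : Con (DF A B) (s₀ - δ) (s₀ + δ) (t₀ - δ) (t₀ + δ) := by
    have h1 : ContinuousOn (fun q : ℝ × ℝ => tc (A q.1))
        (Icc (s₀ - δ) (s₀ + δ) ×ˢ Icc (t₀ - δ) (t₀ + δ)) :=
      tc_cont.comp_continuousOn (hcA.comp continuousOn_fst (fun q hq => hq.1))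
    have h2 : ContinuousOn (fun q : ℝ × ℝ => tc (B q.2))
        (Icc (s₀ - δ) (s₀ + δ) ×ˢ Icc (t₀ - δ) (t₀ + δ)) :=
      tc_cont.comp_continuousOn (hcB.comp continuousOn_snd (fun q hq => hq.2))
    exact h1.sub h2
  have hs1 : s₀ - δ ≤ s₀ + δ := by linarith
  have ht1 : t₀ - δ ≤ t₀ + δ := by linarith
  have hNZB : NZB (DF A B) (s₀ - δ) (s₀ + δ) (t₀ - δ) (t₀ + δ) := by
    refine ⟨fun x hx => ⟨fun h0 => ?_, fun h0 => ?_⟩, fun y hy => ⟨fun h0 => ?_, fun h0 => ?_⟩⟩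
    · have := (hzero x hx _ (left_mem_Icc.2 ht1) h0).2; linarith
    · have := (hzero x hx _ (right_mem_Icc.2 ht1) h0).2; linarith
    · have := (hzero _ (left_mem_Icc.2 hs1) y hy h0).1; linarith
    · have := (hzero _ (right_mem_Icc.2 hs1) y hy h0).1; linarith
  refine ⟨k, ?_⟩
  rw [wnd_congr hTUR (DF A B) (fun s t => Ψ (a s, 0) - Ψ (0, b t)) _ _ _ _ hs1 ht1 hCon hNZB hDF,
    hk]
  push_cast
  ring

end Pool.MXT
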